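import Pool.Agent.W428.MOT.EStm

/-!
Part EFREE of the project ME (owner helper428): free coordinates, equivariant version.
-/

set_option autoImplicit false

namespace Pool.Agent.W230.ME.Free

open MvPolynomial Pool.Agent.W428.MOT

variable {k : Type} [Field k] {n : ℕ} {f : MvPolynomial (Fin n) k}

theorem pf_update {ι : Type} [DecidableEq ι] (i : ι) (a : k) (j : ι) :
    IsPF (fun z : Pt k ι => Function.update z i (algebraMap k _ a) j) := by
  by_cases h : j = i
  · subst h
    simp only [Function.update_self]
    exact IsPF.const a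
  · simp only [Function.update_of_ne h]
    exact IsPF.coord j

theorem constr_eqs {ι : Type} (F : Finset ι) (a : ι → k) :
    Constr {z : Pt k ι | ∀ i ∈ F, z i = algebraMap k _ (a i)} :=
  Constr.ballFinset F fun i _ => Constr.eq (IsPF.coord i) (IsPF.const _)

theorem constr_nes {ι : Type} (F : Finset ι) :
    Constr {z : Pt k ι | ∀ i ∈ F, z i ≠ 0} :=
  Constr.ballFinset F fun i _ => Constr.ne (IsPF.coord i) IsPF.zero

theorem ne_zero_of_pow {l : AlgebraicClosure k} {d : ℕ} (hd : 0 < d) (hl : l ^ d = 1) :
    l ≠ 0 := by
  intro h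
  rw [h, zero_pow hd.ne'] at hl
  exact zero_ne_one hl

section One

variable {ι : Type} [DecidableEq ι] {S : Set (Pt k ι)} {ρ : ι → ℤ} {d : ℕ}
  {β : Fin n → Option ι} {i : ι} {a : k}

/-- `S` does not depend on the coordinate `i` -/
def Indep (S : Set (Pt k ι)) (i : ι) : Prop :=
  ∀ z w : Pt k ι, (∀ j, j ≠ i → w j = z j) → z ∈ S → w ∈ S

theorem valid_fix (h : Valid f S ρ d β) (hβ : ∀ j, β j ≠ some i) (hS : Indep S i) (a : k) :
    Valid f (S ∩ {z | z i = algebraMap k _ a}) (Function.update ρ i 0) d β where
  constr := h.constr.inter (Constr.eq (IsPF.coord i) (IsPF.const _))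
  pos := h.pos
  stable := by
    rintro l hl z ⟨h1, h2⟩
    refine ⟨hS (dact ρ l z) _ (fun j hj => ?_) (h.stable l hl z h1), ?_⟩
    · simp only [dact, Function.update_of_ne hj]
    · change l ^ (Function.update ρ i 0 i) * z i = _
      rw [Function.update_self, zpow_zero, one_mul]
      exact h2
  base := fun z hz => h.base z hz.1
  inv := by
    intro j x hx
    have hne : x ≠ i := by
      rintro rfl
      exact hβ j hx
    rw [Function.update_of_ne hne]
    exact h.inv j x hx

theorem valid_ne (h : Valid f S ρ d β) :
    Valid f (S ∩ {z | z i ≠ 0}) ρ d β where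
  constr := h.constr.inter (Constr.ne (IsPF.coord i) IsPF.zero)
  pos := h.pos
  stable := by
    rintro l hl z ⟨h1, h2⟩
    exact ⟨h.stable l hl z h1, mul_ne_zero (zpow_ne_zero _ (ne_zero_of_pow h.pos hl)) h2⟩
  base := fun z hz => h.base z hz.1
  inv := h.inv

theorem valid_eq (h : Valid f S ρ d β) :
    Valid f (S ∩ {z | z i = 0}) ρ d β where
  constr := h.constr.inter (Constr.eq (IsPF.coord i) IsPF.zero)
  pos := h.pos
  stable := by
    rintro l hl z ⟨h1, h2⟩
    refine ⟨h.stable l hl z h1, ?_⟩
    change l ^ ρ i * z i = 0
    rw [show z i = 0 from h2, mul_zero]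
  base := fun z hz => h.base z hz.1
  inv := h.inv

theorem valid_sum {κ : Type} (h : Valid f S ρ d β) (ρ' : κ → ℤ) :
    Valid f {z : Pt k (ι ⊕ κ) | (fun i => z (Sum.inl i)) ∈ S} (Sum.elim ρ ρ') d
      (fun i => (β i).map Sum.inl) where
  constr := h.constr.preimage (fun (z : Pt k (ι ⊕ κ)) i => z (Sum.inl i)) fun i => IsPF.coord _
  pos := h.pos
  stable := fun l hl z hz => h.stable l hl _ hz
  base := by
    intro z hz
    have h1 := h.base _ hz
    have h2 : cbase (fun i => (β i).map Sum.inl) z = cbase β (fun i => z (Sum.inl i)) := by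
      funext j
      simp only [cbase]
      cases β j <;> rfl
    rw [h2]
    exact h1
  inv := by
    intro j x hx
    obtain ⟨y, hy, rfl⟩ := Option.map_eq_some_iff.1 hx
    exact h.inv j y hy

variable {R : Type} [CommRing R] (M : EMeas f R) [Fintype ι]

theorem step_aff (h : Valid f S ρ d β) (hβ : ∀ j, β j ≠ some i) (hS : Indep S i) (a : k) :
    M.χ ι S ρ d β =
      M.χ ι (S ∩ {z | z i = algebraMap k _ a}) (Function.update ρ i 0) d β * M.L := by
  have h1 := valid_fix h hβ hS a
  have h2 := M.aff (κ := Fin 1) _ _ (fun _ => ρ i) _ _ h1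
  rw [Fintype.card_fin, pow_one] at h2
  rw [← h2]
  refine M.iso _ _ _ _ _ _ _ _ h (valid_sum h1 _)
    (fun z => Sum.elim (Function.update z i (algebraMap k _ a)) (fun _ => z i))
    (fun w => Function.update (fun j => w (Sum.inl j)) i (w (Sum.inr 0)))
    (regularOn_poly ?_ _) (regularOn_poly ?_ _) ?_ ?_ ?_ ?_ ?_ ?_
  · rintro (j | j)
    · exact pf_update i a j
    · exact IsPF.coord i
  · intro j
    by_cases h : j = i
    · subst h
      simp only [Function.update_self]
      exact IsPF.coord _
    · simp only [Function.update_of_ne h]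
      exact IsPF.coord _
  · intro z hz
    refine ⟨hS z _ (fun j hj => ?_) hz, ?_⟩
    · change Function.update z i (algebraMap k _ a) j = z j
      rw [Function.update_of_ne hj]
    · change Function.update z i (algebraMap k _ a) i = _
      rw [Function.update_self]
  · rintro w ⟨hw1, hw2⟩
    refine hS _ _ (fun j hj => ?_) hw1
    exact Function.update_of_ne hj _ _
  · intro z hz
    change Function.update (Function.update z i (algebraMap k _ a)) i (z i) = z
    rw [Function.update_idem, Function.update_eq_self]
  · rintro w ⟨hw1, hw2⟩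
    funext j
    rcases j with j | j
    · change Function.update (Function.update (fun j => w (Sum.inl j)) i (w (Sum.inr 0))) i
        (algebraMap k _ a) j = w (Sum.inl j)
      rw [Function.update_idem]
      exact congrFun (Function.update_eq_self_iff.2 (show w (Sum.inl i) = _ from hw2).symm) j
    · change Function.update (fun j => w (Sum.inl j)) i (w (Sum.inr 0)) i = w (Sum.inr j)
      rw [Function.update_self, Subsingleton.elim j 0]
  · intro z _
    funext j
    simp only [cbase]
    cases hb : β j with
    | none => rfl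
    | some x =>
      have hne : x ≠ i := by
        rintro rfl
        exact hβ j hb
      change Function.update z i (algebraMap k _ a) x = z x
      rw [Function.update_of_ne hne]
  · intro l _ z _
    funext j
    rcases j with j | j
    · by_cases hj : j = i
      · subst hj
        change Function.update (dact ρ (l ^ d) z) j (algebraMap k (AlgebraicClosure k) a) j =
          (l ^ d) ^ (Function.update ρ j 0 j) *
          Function.update z j (algebraMap k (AlgebraicClosure k) a) j
        rw [Function.update_self, Function.update_self, Function.update_self, zpow_zero, one_mul]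
      · change Function.update (dact ρ (l ^ d) z) i (algebraMap k (AlgebraicClosure k) a) j =
          (l ^ d) ^ (Function.update ρ i 0 j) *
          Function.update z i (algebraMap k (AlgebraicClosure k) a) j
        rw [Function.update_of_ne hj, Function.update_of_ne hj, Function.update_of_ne hj]
        rfl
    · rfl

theorem step_ne (h : Valid f S ρ d β) (hβ : ∀ j, β j ≠ some i) (hS : Indep S i) (a : k) :
    M.χ ι (S ∩ {z | z i ≠ 0}) ρ d β =
      M.χ ι (S ∩ {z | z i = algebraMap k _ a}) (Function.update ρ i 0) d β * (M.L - 1) := by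
  have h1 := step_aff M h hβ hS a
  have h2 := M.add _ _ _ _ _ (valid_eq (i := i) h) (valid_ne (i := i) h) (by
    rw [Set.disjoint_left]
    rintro z ⟨_, hz⟩ ⟨_, hz'⟩
    exact hz' hz)
  have h3 : (S ∩ {z : Pt k ι | z i = 0}) ∪ (S ∩ {z | z i ≠ 0}) = S := by
    ext z
    simp only [Set.mem_union, Set.mem_inter_iff, Set.mem_ofPred_eq]
    tauto
  rw [h3] at h2
  have h4 : M.χ ι (S ∩ {z : Pt k ι | z i = 0}) ρ d β =
      M.χ ι (S ∩ {z | z i = algebraMap k _ a}) (Function.update ρ i 0) d β := by
    refine M.iso _ _ _ _ _ _ _ _ (valid_eq h) (valid_fix h hβ hS a)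
      (fun z => Function.update z i (algebraMap k _ a))
      (fun w => Function.update w i (algebraMap k _ 0))
      (regularOn_poly (pf_update i a) _) (regularOn_poly (pf_update i 0) _) ?_ ?_ ?_ ?_ ?_ ?_
    · rintro z ⟨hz, _⟩
      refine ⟨hS z _ (fun j hj => ?_) hz, ?_⟩
      · exact Function.update_of_ne hj _ _
      · change Function.update z i (algebraMap k _ a) i = _
        rw [Function.update_self]
    · rintro z ⟨hz, _⟩
      refine ⟨hS z _ (fun j hj => ?_) hz, ?_⟩
      · exact Function.update_of_ne hj _ _
      · change Function.update z i (algebraMap k _ 0) i = _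
        rw [Function.update_self, map_zero]
    · rintro z ⟨_, hz⟩
      simp only [Function.update_idem]
      rw [map_zero]
      exact Function.update_eq_self_iff.2 (show z i = 0 from hz).symm
    · rintro z ⟨_, hz⟩
      simp only [Function.update_idem]
      exact Function.update_eq_self_iff.2 (show z i = _ from hz).symm
    · intro z _
      funext j
      simp only [cbase]
      cases hb : β j with
      | none => rfl
      | some x =>
        have hne : x ≠ i := by
          rintro rfl
          exact hβ j hb
        change Function.update z i (algebraMap k _ a) x = z x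
        rw [Function.update_of_ne hne]
    · intro l _ z _
      funext j
      by_cases hj : j = i
      · subst hj
        change Function.update (dact ρ (l ^ d) z) j (algebraMap k (AlgebraicClosure k) a) j =
          (l ^ d) ^ (Function.update ρ j 0 j) *
          Function.update z j (algebraMap k (AlgebraicClosure k) a) j
        rw [Function.update_self, Function.update_self, Function.update_self, zpow_zero, one_mul]
      · change Function.update (dact ρ (l ^ d) z) i (algebraMap k (AlgebraicClosure k) a) j =
          (l ^ d) ^ (Function.update ρ i 0 j) *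
          Function.update z i (algebraMap k (AlgebraicClosure k) a) j
        rw [Function.update_of_ne hj, Function.update_of_ne hj, Function.update_of_ne hj]
        rfl
  rw [h1, h4] at h2
  rw [mul_sub, mul_one]
  rw [h2]
  ring

end One

variable {R : Type} [CommRing R] (M : EMeas f R)

theorem free_one {ι : Type} [Fintype ι] [DecidableEq ι] (d : ℕ) (β : Fin n → Option ι)
    (F1 : Finset ι) (a : ι → k) :
    (∀ i j, β i = some j → j ∉ F1) →
    ∀ (S : Set (Pt k ι)) (ρ : ι → ℤ), Valid f S ρ d β →
    (∀ z w : Pt k ι, (∀ i, i ∉ F1 → w i = z i) → z ∈ S → w ∈ S) →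
    M.χ ι S ρ d β = M.χ ι (S ∩ {z | ∀ i ∈ F1, z i = algebraMap k _ (a i)})
      (fun i => if i ∈ F1 then 0 else ρ i) d β * M.L ^ F1.card := by
  induction F1 using Finset.induction_on with
  | empty =>
    intro _ S ρ hS h
    have : S ∩ {z | ∀ i ∈ (∅ : Finset ι), z i = algebraMap k _ (a i)} = S := by
      ext z
      simp
    rw [this, Finset.card_empty, pow_zero, mul_one]
    rfl
  | insert i F1 hi ih =>
    intro hβ S ρ hS h
    have hβi : ∀ j, β j ≠ some i := fun j hj => hβ j i hj (Finset.mem_insert_self _ _)
    have hind : Indep S i := fun z w hzw hz => h z w (fun j hj => hzw j fun hji => by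
      subst hji
      exact hj (Finset.mem_insert_self _ _)) hz
    have h2 := step_aff M hS hβi hind (a i)
    have h1 := ih (fun j x hx hx' => hβ j x hx (Finset.mem_insert_of_mem hx'))
      (S ∩ {z | z i = algebraMap k _ (a i)}) (Function.update ρ i 0)
      (valid_fix hS hβi hind (a i)) (by
        rintro z w hzw ⟨hz1, hz2⟩
        refine ⟨h z w (fun j hj => hzw j fun hj' => hj (Finset.mem_insert_of_mem hj')) hz1, ?_⟩
        change w i = _
        rw [hzw i hi]
        exact hz2)
    have h4 : (S ∩ {z | z i = algebraMap k _ (a i)}) ∩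
        {z | ∀ j ∈ F1, z j = algebraMap k _ (a j)} =
        S ∩ {z | ∀ j ∈ insert i F1, z j = algebraMap k _ (a j)} := by
      ext z
      simp only [Set.mem_inter_iff, Set.mem_ofPred_eq, Finset.mem_insert, forall_eq_or_imp]
      tauto
    have h5 : (fun j => if j ∈ F1 then 0 else Function.update ρ i 0 j) =
        fun j => if j ∈ insert i F1 then 0 else ρ j := by
      funext j
      by_cases hj : j = i
      · subst hj
        simp
      · simp [Finset.mem_insert, hj]
    rw [h2, h1, h4, h5, Finset.card_insert_of_notMem hi, pow_succ]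
    ring

theorem main : S_EFree := by
  intro k _ n f R _ M ι _ _ S ρ d β F0 F1 a hd hS hβ h
  revert S ρ
  induction F0 using Finset.induction_on with
  | empty =>
    intro S ρ hS h
    have h1 := free_one M d β F1 a (fun i j hij => (hβ i j hij).2) S ρ hS
      (fun z w hzw => h z w fun j _ hj => hzw j hj)
    have h2 : S ∩ {z : Pt k ι | ∀ i ∈ (∅ : Finset ι), z i ≠ 0} = S := by
      ext z
      simp
    rw [h2, Finset.empty_union, Finset.card_empty, pow_zero, mul_one]
    exact h1
  | insert i F0 hi ih =>
    intro S ρ hS h
    have hi1 : i ∉ F1 := Finset.disjoint_left.1 hd (Finset.mem_insert_self _ _)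
    have hd' : Disjoint F0 F1 := Finset.disjoint_left.2 fun j hj =>
      Finset.disjoint_left.1 hd (Finset.mem_insert_of_mem hj)
    have hβi : ∀ j, β j ≠ some i := fun j hj => (hβ j i hj).1 (Finset.mem_insert_self _ _)
    have hind : Indep S i := fun z w hzw hz => h z w (fun j hj _ => hzw j fun hji => by
      subst hji
      exact hj (Finset.mem_insert_self _ _)) hz
    have h1 := ih hd' (fun j x hx => ⟨fun hx' => (hβ j x hx).1 (Finset.mem_insert_of_mem hx'),
        (hβ j x hx).2⟩) (S ∩ {z | z i = algebraMap k _ (a i)}) (Function.update ρ i 0)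
      (valid_fix hS hβi hind (a i)) (by
        rintro z w hzw ⟨hz1, hz2⟩
        refine ⟨h z w (fun j hj hj1 => hzw j (fun hj' => hj (Finset.mem_insert_of_mem hj')) hj1)
          hz1, ?_⟩
        change w i = _
        rw [hzw i hi hi1]
        exact hz2)
    -- the set `S2`
    have hS2 : Valid f (S ∩ {z | ∀ j ∈ F0, z j ≠ 0}) ρ d β :=
      { constr := hS.constr.inter (constr_nes F0)
        pos := hS.pos
        stable := by
          rintro l hl z ⟨hz1, hz2⟩
          exact ⟨hS.stable l hl z hz1, fun j hj =>
            mul_ne_zero (zpow_ne_zero _ (ne_zero_of_pow hS.pos hl)) (hz2 j hj)⟩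
        base := fun z hz => hS.base z hz.1
        inv := hS.inv }
    have hind2 : Indep (S ∩ {z | ∀ j ∈ F0, z j ≠ 0}) i := by
      rintro z w hzw ⟨hz1, hz2⟩
      refine ⟨hind z w hzw hz1, fun j hj => ?_⟩
      rw [hzw j (by rintro rfl; exact hi hj)]
      exact hz2 j hj
    have h2 := step_ne M hS2 hβi hind2 (a i)
    have h3 : (S ∩ {z : Pt k ι | ∀ j ∈ F0, z j ≠ 0}) ∩ {z | z i ≠ 0} =
        S ∩ {z | ∀ j ∈ insert i F0, z j ≠ 0} := by
      ext z
      simp only [Set.mem_inter_iff, Set.mem_ofPred_eq, Finset.mem_insert, forall_eq_or_imp]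
      tauto
    have h3' : (S ∩ {z : Pt k ι | ∀ j ∈ F0, z j ≠ 0}) ∩ {z | z i = algebraMap k _ (a i)} =
        (S ∩ {z | z i = algebraMap k _ (a i)}) ∩ {z | ∀ j ∈ F0, z j ≠ 0} := by
      ext z
      simp only [Set.mem_inter_iff]
      tauto
    have h4 : (S ∩ {z | z i = algebraMap k _ (a i)}) ∩
        {z | ∀ j ∈ F0 ∪ F1, z j = algebraMap k _ (a j)} =
        S ∩ {z | ∀ j ∈ insert i F0 ∪ F1, z j = algebraMap k _ (a j)} := by
      ext z
      simp only [Set.mem_inter_iff, Set.mem_ofPred_eq, Finset.insert_union, Finset.mem_insert,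
        forall_eq_or_imp]
      tauto
    have h5 : (fun j => if j ∈ F0 ∪ F1 then 0 else Function.update ρ i 0 j) =
        fun j => if j ∈ insert i F0 ∪ F1 then 0 else ρ j := by
      funext j
      by_cases hj : j = i
      · subst hj
        simp
      · simp [Finset.mem_insert, hj]
    rw [h3, h3', h1, h4, h5] at h2
    rw [h2, Finset.card_insert_of_notMem hi, pow_succ]
    ring

end Pool.Agent.W230.ME.Free
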